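import Pool.Agent.Lib.MP_d0323d_co.Geo.Meas
import Pool.Agent.Lib.MP_d0323d_co.Geo.Lim
import Pool.Agent.Lib.MP_d0323d_co.Lower
import Pool.Agent.Lib.MP_d0323d_co.UpperSide

/-!
# Simple connectivity of the random 2-complex has a sharp threshold at `1 / sqrt (γ n)`

The question of `MP_d0323d_co` in its own words: the Linial-Meshulam complex is a random set of
triples (product Bernoulli measure), simple connectivity is that of the geometric realisation.
Beside the proof of the frozen statement `S11561` (same library), this file uses a proof that the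
realisation is simply connected iff the edge-path group is trivial (`Lib/MP_d0323d_co/Geo`).
-/

set_option autoImplicit false

open Filter Topology MeasureTheory

namespace Pool.Agent.Results.MP_d0323d_co.GeometricThreshold

/-- The geometric realisation of the 2-dimensional complex on the vertex set `Fin n` with complete
1-skeleton and set of triangles `Y`: the union, inside `Fin n → ℝ`, of the simplices spanned by the
sets of at most two vertices and by the members of `Y` (vertex `i` is the unit vector `e_i`). -/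
def realisation {n : ℕ} (Y : Set (Finset (Fin n))) : Set (Fin n → ℝ) :=
  ⋃ s ∈ {s : Finset (Fin n) | s.card ≤ 2 ∨ s ∈ Y},
    convexHull ℝ ((fun i : Fin n => (Pi.single i (1 : ℝ) : Fin n → ℝ)) '' (s : Set (Fin n)))

/-- The Linial-Meshulam model `Y_2(n,p)`: the law of the random set of triangles which contains
each triple of vertices independently with probability `p`. -/
noncomputable def Y2 (n : ℕ) (p : unitInterval) : Measure (Set (Finset (Fin n))) :=
  ProbabilityTheory.setBernoulli {t : Finset (Fin n) | t.card = 3} p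

/-- `S` is the set of triangles of a triangulated 2-sphere with vertex set `Fin v`: all members
are triples, every vertex lies in one of them, every pair of vertices lies in none or in exactly
two of them, any two are joined by a chain in which consecutive members share a pair, and
`|S| = 2 v - 4` (Euler characteristic 2). -/
def IsTriangulatedSphere (v : ℕ) (S : Finset (Finset (Fin v))) : Prop :=
  (∀ s ∈ S, s.card = 3) ∧ (∀ i, ∃ s ∈ S, i ∈ s) ∧
  (∀ e : Finset (Fin v), e.card = 2 →
    (S.filter (fun s => e ⊆ s)).card = 0 ∨ (S.filter (fun s => e ⊆ s)).card = 2) ∧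
  (∀ s ∈ S, ∀ t ∈ S,
    Relation.ReflTransGen (fun a b => a ∈ S ∧ b ∈ S ∧ (a ∩ b).card = 2) s t) ∧
  S.Nonempty ∧ S.card + 4 = 2 * v

lemma sphere_iff (v : ℕ) (S : Finset (Finset (Fin v))) :
    IsTriangulatedSphere v S ↔ (SC.IsSphere S ∧ SC.verts S = Finset.univ) := by
  have hv : SC.verts S = Finset.univ ↔ ∀ i, ∃ s ∈ S, i ∈ s := by
    rw [Finset.eq_univ_iff_forall]
    simp [SC.verts]
  unfold IsTriangulatedSphere SC.IsSphere SC.IsFam SC.Closed SC.DualConn SC.EAdj SC.edeg SC.Ph2
  rw [hv]
  constructor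
  · rintro ⟨h1, h2, h3, h4, h5, h6⟩
    refine ⟨⟨h1, h3, h4, h5, ?_⟩, h2⟩
    rw [hv.mpr h2, Finset.card_univ, Fintype.card_fin]
    omega
  · rintro ⟨⟨h1, h3, h4, h5, h6⟩, h2⟩
    refine ⟨h1, h2, h3, h4, h5, ?_⟩
    rw [hv.mpr h2, Finset.card_univ, Fintype.card_fin] at h6
    omega

lemma card_sphere (v : ℕ) :
    Nat.card {S : Finset (Finset (Fin v)) // IsTriangulatedSphere v S} = SC.sph v := by
  classical
  rw [Nat.card_eq_fintype_card, Fintype.card_subtype]
  unfold SC.sph
  congr 1
  ext S
  simp only [Finset.mem_filter, Finset.mem_univ, true_and]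
  exact sphere_iff v S

/-- the probability of simple connectivity in the words of the library -/
lemma prob_eq {n : ℕ} (hn : 0 < n) (p : unitInterval) :
    (Y2 n p).real {Y | IsSimplyConnected (realisation Y)}
      = SC.Pr (SC.tri n) (p : ℝ) (SC.Triv n) := by
  have h0 : {t : Finset (Fin n) | t.card = 3} = ((SC.tri n : Finset (Finset (Fin n))) : Set _) := by
    ext t; simp [SC.tri]
  unfold Y2
  rw [h0, SC.Geo.setBer_real]
  apply SC.Pr_congr
  intro F hF
  have hF3 : ∀ s ∈ F, s.card = 3 := fun s hs => by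
    have := hF hs
    simpa [SC.tri] using this
  show IsSimplyConnected (realisation (F : Set (Finset (Fin n)))) ↔ SC.Triv n F
  rw [← SC.Geo.triv_iff hn hF3]
  have hu : realisation (F : Set (Finset (Fin n))) = SC.Geo.Cx (SC.Geo.face n (F : Set _)) :=
    SC.Geo.union_hull_eq (F := (F : Set (Finset (Fin n)))) hF3
  rw [hu]
  rfl

lemma prob_mono {n : ℕ} {p q : ℝ} (h0 : 0 ≤ p) (hpq : p ≤ q) (h1 : q ≤ 1) :
    SC.Pr (SC.tri n) p (SC.Triv n) ≤ SC.Pr (SC.tri n) q (SC.Triv n) :=
  SC.Pr_mono_p h0 hpq h1 (fun _ _ hFG _ h => SC.Triv.mono hFG h)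

/-- **Simple connectivity of the Linial-Meshulam complex `Y_2(n,p)` has a sharp threshold, at
`p = 1 / sqrt (γ n)`**, where `γ` is the exponential growth rate of the number of labelled
triangulations of the 2-sphere. -/
theorem result :
    ∃ γ : ℝ, 1 ≤ γ ∧
      Tendsto (fun v : ℕ =>
        ((Nat.card {S : Finset (Finset (Fin v)) // IsTriangulatedSphere v S} : ℝ)
          / (v.factorial : ℝ)) ^ (1 / (v : ℝ))) atTop (𝓝 γ) ∧
      ∀ ε : ℝ, 0 < ε → ∀ p : ℕ → unitInterval,
        ((∀ᶠ n : ℕ in atTop, (p n : ℝ) ≤ (1 - ε) * (1 / √(γ * n))) →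
          Tendsto (fun n : ℕ => (Y2 n (p n)).real {Y | IsSimplyConnected (realisation Y)})
            atTop (𝓝 0)) ∧
        ((∀ᶠ n : ℕ in atTop, (1 + ε) * (1 / √(γ * n)) ≤ (p n : ℝ)) →
          Tendsto (fun n : ℕ => (Y2 n (p n)).real {Y | IsSimplyConnected (realisation Y)})
            atTop (𝓝 1)) := by
  obtain ⟨γ, hγ, hγ1, hγ2⟩ := SC.exists_gam
  refine ⟨γ, hγ, ?_, ?_⟩
  · have h := SC.Geo.lim_sph hγ hγ1 hγ2
    refine h.congr (fun v => ?_)
    rw [card_sphere]
  intro ε hε p
  have hγ0 : 0 < γ := by linarith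
  have hsγ : 0 < √γ := Real.sqrt_pos.mpr hγ0
  have hsγ2 : √γ ^ 2 = γ := Real.sq_sqrt hγ0.le
  have hsq : ∀ n : ℕ, (1 : ℝ) / √(γ * n) = 1 / √γ / √(n : ℝ) := by
    intro n
    rw [Real.sqrt_mul hγ0.le, div_div]
  -- a parameter smaller than one
  set δ : ℝ := min ε (1 / 2) with hδ
  have hδ0 : 0 < δ := lt_min hε (by norm_num)
  have hδ1 : δ < 1 := lt_of_le_of_lt (min_le_right _ _) (by norm_num)
  have hδε : δ ≤ ε := min_le_left _ _
  constructor
  · intro hp
    have hc : 0 < (1 - δ) / √γ := div_pos (by linarith) hsγ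
    have hcγ : ((1 - δ) / √γ) ^ 2 * γ < 1 := by
      rw [div_pow, hsγ2, div_mul_cancel₀ _ hγ0.ne']
      nlinarith
    have hlow := SC.lower_side hγ hγ1 hc hcγ
    have hsmall : Tendsto (fun n : ℕ => (1 - δ) / √γ / √(n : ℝ)) atTop (𝓝 0) :=
      Tendsto.div_atTop tendsto_const_nhds
        ((Real.tendsto_sqrt_atTop).comp tendsto_natCast_atTop_atTop)
    refine squeeze_zero' (Eventually.of_forall fun n => measureReal_nonneg) ?_ hlow
    filter_upwards [hp, eventually_gt_atTop 0,
      hsmall.eventually (gt_mem_nhds (show (0 : ℝ) < 1 by norm_num))] with n hpn hn hn1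
    rw [prob_eq hn]
    apply prob_mono (p n).2.1 _ hn1.le
    refine hpn.trans ?_
    rw [hsq]
    have h1 : 0 ≤ 1 / √γ / √(n : ℝ) := by positivity
    calc (1 - ε) * (1 / √γ / √(n : ℝ)) ≤ (1 - δ) * (1 / √γ / √(n : ℝ)) :=
          mul_le_mul_of_nonneg_right (by linarith) h1
      _ = (1 - δ) / √γ / √(n : ℝ) := by ring
  · intro hp
    have hc : 0 < (1 + δ) / √γ := div_pos (by linarith) hsγ
    have hcγ : 1 < ((1 + δ) / √γ) ^ 2 * γ := by
      rw [div_pow, hsγ2, div_mul_cancel₀ _ hγ0.ne']
      nlinarith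
    have hup := SC.upper_side hγ hγ2 hc hcγ
    refine tendsto_of_tendsto_of_tendsto_of_le_of_le' hup tendsto_const_nhds ?_ ?_
    · filter_upwards [hp, eventually_gt_atTop 0] with n hpn hn
      rw [prob_eq hn]
      apply prob_mono (by positivity) _ (p n).2.2
      refine le_trans ?_ hpn
      rw [hsq]
      have h1 : 0 ≤ 1 / √γ / √(n : ℝ) := by positivity
      calc (1 + δ) / √γ / √(n : ℝ) = (1 + δ) * (1 / √γ / √(n : ℝ)) := by ring
        _ ≤ (1 + ε) * (1 / √γ / √(n : ℝ)) := mul_le_mul_of_nonneg_right (by linarith) h1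
    · filter_upwards [eventually_gt_atTop 0] with n hn
      rw [prob_eq hn]
      exact SC.Pr_le_one (p n).2.1 (p n).2.2 _

end Pool.Agent.Results.MP_d0323d_co.GeometricThreshold
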